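import Pool.Agent.N422.NWS.Stm

/-! Piece ABS (helper420) of the project NWS: the kernel of all sites is almost adjoint. -/

set_option autoImplicit false

open Finset

namespace Pool.Agent.Run7.h420.NWS

open Pool.Agent.N422.NW Pool.Agent.N422.NWS

lemma u_half {k : ℕ} (a : Fin k) {u : ℝ} (h0 : 0 ≤ u) (h : 2 * k * u ≤ 1) : u ≤ 1 / 2 := by
  have h1 : (1 : ℝ) ≤ k := by exact_mod_cast a.pos
  nlinarith

lemma mem_Ta {N k : ℕ} (γ : St N k) (a : Fin k) (i : Fin N) : i ∈ Ta γ a ↔ γ i = some a := by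
  simp [Ta]

lemma loc_le {k : ℕ} {u : ℝ} (h0 : 0 ≤ u) (h : 2 * k * u ≤ 1) (c : Option (Fin k)) :
    mu1u u c ≤ ∏ a : Fin k, (if c = some a then u * (1 + 2 * k * u) else 1 - u) := by
  cases c with
  | none =>
    simp only [mu1u]
    rcases Nat.eq_zero_or_pos k with rfl | hk
    · simp
    · have hu := u_half (⟨0, hk⟩ : Fin k) h0 h
      have h1 := one_add_mul_le_pow (a := -u) (by linarith) k
      simp only [reduceCtorEq, if_false, prod_const, card_univ, Fintype.card_fin]
      calc 1 - (k : ℝ) * u = 1 + k * -u := by ring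
        _ ≤ (1 + -u) ^ k := h1
        _ = (1 - u) ^ k := by ring
  | some b =>
    have hu := u_half b h0 h
    have hk : 1 ≤ k := b.pos
    have hk1 : (1 : ℝ) ≤ k := by exact_mod_cast hk
    have h2 : ∏ a : Fin k, (if some b = some a then u * (1 + 2 * k * u) else 1 - u) =
        u * (1 + 2 * k * u) * (1 - u) ^ (k - 1) := by
      rw [← Finset.mul_prod_erase univ _ (mem_univ b)]
      have h3 : ∏ a ∈ univ.erase b, (if some b = some a then u * (1 + 2 * k * u) else 1 - u) =
          ∏ a ∈ univ.erase b, (1 - u) := by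
        refine prod_congr rfl fun a ha => ?_
        have h4 : a ≠ b := ne_of_mem_erase ha
        rw [if_neg (by
          intro h5
          exact h4 (Option.some.inj h5).symm)]
      rw [h3, if_pos rfl, prod_const, card_erase_of_mem (mem_univ b), card_univ, Fintype.card_fin]
    rw [h2]
    simp only [mu1u]
    have h1 := one_add_mul_le_pow (a := -u) (by linarith) (k - 1)
    have h3 : ((k - 1 : ℕ) : ℝ) = k - 1 := by
      rw [Nat.cast_sub hk, Nat.cast_one]
    rw [h3] at h1
    have h4 : 1 ≤ (1 + 2 * k * u) * (1 - u) ^ (k - 1) := by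
      have h5 : (1 + 2 * k * u) * (1 + (k - 1) * -u) ≤ (1 + 2 * k * u) * (1 + -u) ^ (k - 1) := by
        apply mul_le_mul_of_nonneg_left h1
        positivity
      have h6 : (1 + -u) = 1 - u := by ring
      rw [h6] at h5
      refine le_trans ?_ h5
      have h7 : 0 ≤ (k - 1 : ℝ) * u := mul_nonneg (by linarith) h0
      nlinarith
    calc u = u * 1 := by ring
      _ ≤ u * ((1 + 2 * k * u) * (1 - u) ^ (k - 1)) := mul_le_mul_of_nonneg_left h4 h0
      _ = _ := by ring

lemma mu_le {N k : ℕ} {u : Fin N → ℝ} (hu : ∀ i, 0 ≤ u i ∧ 2 * k * u i ≤ 1) (γ : St N k) :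
    muU u γ ≤ ∏ a, muPl k u (Ta γ a) := by
  unfold muU muPl
  rw [Finset.prod_comm]
  refine prod_le_prod (fun i _ => ?_) fun i _ => ?_
  · cases γ i with
    | none =>
      simp only [mu1u]
      have := (hu i).2
      have h0 := (hu i).1
      have h1 : 0 ≤ (k : ℝ) * u i := by positivity
      nlinarith
    | some b => exact (hu i).1
  · simp only [mem_Ta]
    exact loc_le (hu i).1 (hu i).2 (γ i)

lemma muPl_nonneg {N k : ℕ} {u : Fin N → ℝ} (hu : ∀ i, 0 ≤ u i ∧ 2 * k * u i ≤ 1) (a : Fin k)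
    (T : Finset (Fin N)) : 0 ≤ muPl k u T := by
  unfold muPl
  refine prod_nonneg fun i _ => ?_
  have h0 := (hu i).1
  have h1 := u_half a h0 (hu i).2
  split_ifs
  · positivity
  · linarith

/-- the sum over the sets which contain `b` -/
lemma sum_some {k : ℕ} (b : Fin k) (x y : ℝ) :
    ∑ A : Finset (Fin k), (if b ∈ A then 1 else 0) * ∏ a, (if a ∈ A then x else y) =
      x * (x + y) ^ (k - 1) := by
  have h1 := Finset.prod_add (fun _ : Fin k => x) (fun a => if a = b then 0 else y) univ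
  have h2 : ∏ i : Fin k, (x + if i = b then 0 else y) = x * (x + y) ^ (k - 1) := by
    rw [← Finset.mul_prod_erase univ _ (mem_univ b)]
    have h3 : ∏ a ∈ univ.erase b, (x + if a = b then 0 else y) = ∏ a ∈ univ.erase b, (x + y) := by
      refine prod_congr rfl fun a ha => ?_
      rw [if_neg (ne_of_mem_erase ha)]
    rw [h3, if_pos rfl, prod_const, card_erase_of_mem (mem_univ b), card_univ, Fintype.card_fin, add_zero]
  rw [← h2, h1, powerset_univ]
  refine sum_congr rfl fun A _ => ?_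
  have h4 : ∏ a, (if a ∈ A then x else y) = (∏ a ∈ A, x) * ∏ a ∈ univ \ A, y := by
    rw [prod_ite]
    congr 1
    · refine prod_congr ?_ fun _ _ => rfl
      ext; simp
    · refine prod_congr ?_ fun _ _ => rfl
      ext; simp
  rw [h4]
  by_cases hb : b ∈ A
  · rw [if_pos hb, one_mul]
    congr 1
    refine prod_congr rfl fun a ha => ?_
    rw [if_neg]
    rintro rfl
    exact (mem_sdiff.1 ha).2 hb
  · rw [if_neg hb, zero_mul]
    symm
    apply mul_eq_zero_of_right
    exact prod_eq_zero (mem_sdiff.2 ⟨mem_univ b, hb⟩) (if_pos rfl)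

/-- the sum over all sets -/
lemma sum_all {k : ℕ} (x y : ℝ) :
    ∑ A : Finset (Fin k), ∏ a, (if a ∈ A then x else y) = (x + y) ^ k := by
  have h1 := Finset.prod_add (fun _ : Fin k => x) (fun _ => y) univ
  rw [prod_const, card_univ, Fintype.card_fin] at h1
  rw [h1, powerset_univ]
  refine sum_congr rfl fun A _ => ?_
  rw [prod_ite]
  congr 1
  · refine prod_congr ?_ fun _ _ => rfl
    ext; simp
  · refine prod_congr ?_ fun _ _ => rfl
    ext; simp

/-- the mean of the cardinality -/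
lemma sum_card {k : ℕ} (x y : ℝ) :
    ∑ A : Finset (Fin k), (A.card : ℝ) * ∏ a, (if a ∈ A then x else y) = k * (x * (x + y) ^ (k - 1)) := by
  have h1 : ∀ A : Finset (Fin k), (A.card : ℝ) = ∑ b : Fin k, (if b ∈ A then 1 else 0 : ℝ) := by
    intro A
    rw [sum_ite_mem, univ_inter, sum_const, nsmul_eq_mul, mul_one]
  simp only [h1, sum_mul]
  rw [sum_comm]
  simp only [sum_some, sum_const, card_univ, Fintype.card_fin, nsmul_eq_mul]

lemma sum_none {k : ℕ} (x y : ℝ) :
    ∑ A : Finset (Fin k), |1 - (A.card : ℝ)| * ∏ a, (if a ∈ A then x else y) =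
      k * (x * (x + y) ^ (k - 1)) - (x + y) ^ k + 2 * y ^ k := by
  have h1 : ∀ A : Finset (Fin k), |1 - (A.card : ℝ)| * ∏ a, (if a ∈ A then x else y) =
      (A.card : ℝ) * ∏ a, (if a ∈ A then x else y) - ∏ a, (if a ∈ A then x else y) +
        (if A = ∅ then 2 * y ^ k else 0) := by
    intro A
    by_cases hA : A = ∅
    · subst hA
      simp
      ring
    · have h2 : (1 : ℝ) ≤ A.card := by
        exact_mod_cast (nonempty_iff_ne_empty.2 hA).card_pos
      rw [if_neg hA, abs_of_nonpos (by linarith)]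
      ring
  simp only [h1, sum_add_distrib, sum_sub_distrib, sum_card, sum_all]
  simp

lemma exp_neg_le {x : ℝ} (hx : 0 ≤ x) : Real.exp (-x) ≤ 1 - x + x ^ 2 := by
  have h1 := Real.add_one_le_exp x
  rw [Real.exp_neg, inv_le_comm₀ (Real.exp_pos x) (by nlinarith)]
  refine le_trans ?_ h1
  rw [inv_le_iff_one_le_mul₀ (by nlinarith)]
  nlinarith [pow_nonneg hx 3]

lemma none_le {k : ℕ} {u : ℝ} (h0 : 0 ≤ u) (h : 2 * k * u ≤ 1) :
    k * (u * (1 + 2 * k * u) * (u * (1 + 2 * k * u) + (1 - u)) ^ (k - 1)) -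
      (u * (1 + 2 * k * u) + (1 - u)) ^ k + 2 * (1 - u) ^ k ≤
    Real.exp (20 * k ^ 2 * u ^ 2 + 0) * (1 - k * u) := by
  rcases Nat.eq_zero_or_pos k with rfl | hk
  · simp
    norm_num
  · have hu := u_half (⟨0, hk⟩ : Fin k) h0 h
    have hk1 : (1 : ℝ) ≤ k := by exact_mod_cast hk
    have e1 : u * (1 + 2 * k * u) + (1 - u) = 1 + 2 * k * u ^ 2 := by ring
    rw [e1]
    have e2 : (1 + 2 * k * u ^ 2) ^ k = (1 + 2 * k * u ^ 2) * (1 + 2 * k * u ^ 2) ^ (k - 1) := by
      rw [← pow_succ', Nat.sub_add_cancel hk]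
    rw [e2]
    have e3 : (k : ℝ) * (u * (1 + 2 * k * u) * (1 + 2 * k * u ^ 2) ^ (k - 1)) -
        (1 + 2 * k * u ^ 2) * (1 + 2 * k * u ^ 2) ^ (k - 1) =
        -((1 + 2 * k * u ^ 2 - k * u - 2 * (k * u) ^ 2) * (1 + 2 * k * u ^ 2) ^ (k - 1)) := by ring
    rw [e3]
    set y : ℝ := k * u with hy
    have hy0 : 0 ≤ y := by positivity
    have hy1 : y ≤ 1 / 2 := by
      have : 2 * y = 2 * k * u := by rw [hy]; ring
      linarith
    have h1 : (1 : ℝ) ≤ (1 + 2 * k * u ^ 2) ^ (k - 1) := by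
      apply one_le_pow₀
      have : 0 ≤ 2 * (k : ℝ) * u ^ 2 := by positivity
      linarith
    have h2 : 0 ≤ 2 * (k : ℝ) * u ^ 2 := by positivity
    have h3 : 0 ≤ 1 + 2 * (k : ℝ) * u ^ 2 - y - 2 * y ^ 2 := by nlinarith
    have h4 : 1 - y - 2 * y ^ 2 ≤ (1 + 2 * (k : ℝ) * u ^ 2 - y - 2 * y ^ 2) * (1 + 2 * k * u ^ 2) ^ (k - 1) := by
      calc 1 - y - 2 * y ^ 2 ≤ (1 + 2 * (k : ℝ) * u ^ 2 - y - 2 * y ^ 2) * 1 := by linarith
        _ ≤ _ := mul_le_mul_of_nonneg_left h1 h3
    have h5 : (1 - u) ^ k ≤ 1 - y + y ^ 2 := by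
      have h6 : (1 - u) ^ k ≤ (Real.exp (-u)) ^ k := by
        apply pow_le_pow_left₀ (by linarith)
        have := Real.add_one_le_exp (-u)
        linarith
      rw [← Real.exp_nat_mul] at h6
      have h7 : (k : ℝ) * -u = -y := by rw [hy]; ring
      rw [h7] at h6
      exact h6.trans (exp_neg_le hy0)
    have h6 := Real.add_one_le_exp (20 * (k : ℝ) ^ 2 * u ^ 2 + 0)
    have h7 : 20 * (k : ℝ) ^ 2 * u ^ 2 + 0 = 20 * y ^ 2 := by rw [hy]; ring
    rw [h7] at h6 ⊢
    have h8 : (20 * y ^ 2 + 1) * (1 - y) ≤ Real.exp (20 * y ^ 2) * (1 - y) :=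
      mul_le_mul_of_nonneg_right h6 (by linarith)
    refine le_trans ?_ h8
    nlinarith [mul_nonneg hy0 hy0, mul_nonneg (mul_nonneg hy0 hy0) (sub_nonneg.2 hy1)]

lemma some_le {k : ℕ} {u : ℝ} (h0 : 0 ≤ u) :
    u * (1 + 2 * k * u) * (u * (1 + 2 * k * u) + (1 - u)) ^ (k - 1) ≤
    Real.exp (20 * k ^ 2 * u ^ 2 + 2 * k * u) * u := by
  have e1 : u * (1 + 2 * k * u) + (1 - u) = 1 + 2 * k * u ^ 2 := by ring
  rw [e1]
  have h1 : (1 : ℝ) + 2 * k * u ≤ Real.exp (2 * k * u) := by
    have := Real.add_one_le_exp (2 * k * u)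
    linarith
  have h2 : (1 + 2 * (k : ℝ) * u ^ 2) ^ (k - 1) ≤ Real.exp (20 * k ^ 2 * u ^ 2) := by
    calc (1 + 2 * (k : ℝ) * u ^ 2) ^ (k - 1) ≤ (1 + 2 * (k : ℝ) * u ^ 2) ^ k := by
          apply pow_le_pow_right₀ _ (Nat.sub_le k 1)
          have : 0 ≤ 2 * (k : ℝ) * u ^ 2 := by positivity
          linarith
      _ ≤ (Real.exp (2 * k * u ^ 2)) ^ k := by
          apply pow_le_pow_left₀ (by positivity)
          have := Real.add_one_le_exp (2 * k * u ^ 2)
          linarith
      _ = Real.exp (2 * k ^ 2 * u ^ 2) := by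
          rw [← Real.exp_nat_mul]
          congr 1
          ring
      _ ≤ Real.exp (20 * k ^ 2 * u ^ 2) := by
          apply Real.exp_le_exp.2
          have : 0 ≤ (k : ℝ) ^ 2 * u ^ 2 := by positivity
          nlinarith
  rw [Real.exp_add]
  calc u * (1 + 2 * k * u) * (1 + 2 * k * u ^ 2) ^ (k - 1) ≤
      u * Real.exp (2 * k * u) * Real.exp (20 * k ^ 2 * u ^ 2) := by gcongr
    _ = _ := by ring

/-- the factor of one place -/
noncomputable def lam1 {k : ℕ} (A : Finset (Fin k)) : Option (Fin k) → ℝ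
  | some a => if a ∈ A then 1 else 0
  | none => 1 - (A.card : ℝ)

lemma place_le {k : ℕ} {u : ℝ} (h0 : 0 ≤ u) (h : 2 * k * u ≤ 1) (c : Option (Fin k)) :
    ∑ A : Finset (Fin k), |lam1 A c| * ∏ a, (if a ∈ A then u * (1 + 2 * k * u) else 1 - u) ≤
      Real.exp (20 * k ^ 2 * u ^ 2 + if c = none then 0 else 2 * k * u) * mu1u u c := by
  cases c with
  | none =>
    simp only [lam1, sum_none, if_true, mu1u]
    exact none_le h0 h
  | some b =>
    have h1 : ∀ A : Finset (Fin k), |lam1 A (some b)| = if b ∈ A then 1 else 0 := by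
      intro A
      simp only [lam1]
      split_ifs <;> simp
    simp only [h1, sum_some, reduceCtorEq, if_false, mu1u]
    exact some_le h0

/-- the sum over `ω` is a product over the places -/
lemma sum_omega {N k : ℕ} (F : Fin N → Finset (Fin k) → ℝ) :
    ∑ ω : Fin k → Finset (Fin N), ∏ i, F i (univ.filter (fun a => i ∈ ω a)) = ∏ i, ∑ A, F i A := by
  rw [Finset.prod_univ_sum, Fintype.piFinset_univ]
  refine Finset.sum_bij' (fun ω _ => fun i => univ.filter (fun a => i ∈ ω a))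
    (fun τ _ => fun a => univ.filter (fun i => a ∈ τ i)) ?_ ?_ ?_ ?_ ?_
  · intros; exact mem_univ _
  · intros; exact mem_univ _
  · intro ω _
    ext a i
    simp
  · intro τ _
    ext i a
    simp
  · intros; rfl

lemma lam_eq {N k : ℕ} (ω : Fin k → Finset (Fin N)) (i : Fin N) (c : Option (Fin k)) :
    lam ω i c = lam1 (univ.filter (fun a => i ∈ ω a)) c := by
  cases c with
  | none => rfl
  | some b => simp [lam, lam1]

lemma prod_muPl {N k : ℕ} (u : Fin N → ℝ) (ω : Fin k → Finset (Fin N)) :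
    ∏ a, muPl k u (ω a) = ∏ i, ∏ a, (if a ∈ univ.filter (fun a => i ∈ ω a) then
      u i * (1 + 2 * k * u i) else 1 - u i) := by
  unfold muPl
  rw [Finset.prod_comm]
  simp

lemma Ta_inj {N k : ℕ} : Function.Injective (fun (γ : St N k) (a : Fin k) => Ta γ a) := by
  intro γ γ' h
  funext i
  have h1 : ∀ a, γ i = some a ↔ γ' i = some a := by
    intro a
    rw [← mem_Ta, ← mem_Ta]
    have := congrFun h a
    simp only at this
    rw [this]
  cases hc : γ i with
  | none =>
    cases hc' : γ' i with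
    | none => rfl
    | some b =>
      have := (h1 b).2 hc'
      rw [hc] at this
      exact absurd this (by simp)
  | some b => exact ((h1 b).1 hc).symm

theorem t_ABS : S_ABS := by
  intro N k u Z K φ hu hZ hK hφ hmain γ'
  -- the sum over `γ` for fixed `ω`
  have h1 : ∀ ω : Fin k → Finset (Fin N),
      ∑ γ : St N k, muU u γ * (∏ a, φ (Ta γ a)) * ∏ a, K (Ta γ a) (ω a) ≤
        Z ^ k * ∏ a, muPl k u (ω a) := by
    intro ω
    have hnn : ∀ τ : Fin k → Finset (Fin N), 0 ≤ ∏ a, (muPl k u (τ a) * φ (τ a) * K (τ a) (ω a)) :=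
      fun τ => prod_nonneg fun a _ => mul_nonneg (mul_nonneg (muPl_nonneg hu a _) (hφ _)) (hK _ _)
    calc ∑ γ : St N k, muU u γ * (∏ a, φ (Ta γ a)) * ∏ a, K (Ta γ a) (ω a)
        ≤ ∑ γ : St N k, ∏ a, (muPl k u (Ta γ a) * φ (Ta γ a) * K (Ta γ a) (ω a)) := by
          refine sum_le_sum fun γ _ => ?_
          rw [prod_mul_distrib, prod_mul_distrib]
          have h2 := mu_le hu γ
          have h3 : 0 ≤ ∏ a, φ (Ta γ a) := prod_nonneg fun a _ => hφ _
          have h4 : 0 ≤ ∏ a, K (Ta γ a) (ω a) := prod_nonneg fun a _ => hK _ _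
          gcongr
      _ = ∑ τ ∈ (univ : Finset (St N k)).image (fun γ a => Ta γ a),
            ∏ a, (muPl k u (τ a) * φ (τ a) * K (τ a) (ω a)) := by
          rw [sum_image (fun x _ y _ h => Ta_inj h)]
      _ ≤ ∑ τ : Fin k → Finset (Fin N), ∏ a, (muPl k u (τ a) * φ (τ a) * K (τ a) (ω a)) :=
          sum_le_sum_of_subset_of_nonneg (subset_univ _) fun τ _ _ => hnn τ
      _ = ∏ a, ∑ T : Finset (Fin N), muPl k u T * φ T * K T (ω a) := by
          rw [Finset.prod_univ_sum, Fintype.piFinset_univ]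
      _ ≤ ∏ a : Fin k, (Z * muPl k u (ω a)) := by
          refine prod_le_prod (fun a _ => ?_) fun a _ => hmain (ω a)
          exact sum_nonneg fun T _ => mul_nonneg (mul_nonneg (muPl_nonneg hu a _) (hφ _)) (hK _ _)
      _ = _ := by
          rw [prod_mul_distrib, prod_const, card_univ, Fintype.card_fin]
  -- the norm
  have h2 : ∀ γ : St N k, ‖KX (fun T T' => (K T T' : ℂ)) γ γ'‖ ≤
      ∑ ω : Fin k → Finset (Fin N), (∏ a, K (Ta γ a) (ω a)) * ∏ i, |lam ω i (γ' i)| := by
    intro γ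
    unfold KX
    refine (norm_sum_le _ _).trans (le_of_eq ?_)
    refine sum_congr rfl fun ω _ => ?_
    rw [← Complex.ofReal_prod, ← Complex.ofReal_mul, Complex.norm_real, Real.norm_eq_abs, abs_mul,
      abs_prod, abs_prod]
    congr 1
    exact prod_congr rfl fun a _ => abs_of_nonneg (hK _ _)
  calc ∑ γ, muU u γ * (∏ a, φ (Ta γ a)) * ‖KX (fun T T' => (K T T' : ℂ)) γ γ'‖
      ≤ ∑ γ, muU u γ * (∏ a, φ (Ta γ a)) *
          ∑ ω : Fin k → Finset (Fin N), (∏ a, K (Ta γ a) (ω a)) * ∏ i, |lam ω i (γ' i)| := by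
        refine sum_le_sum fun γ _ => ?_
        refine mul_le_mul_of_nonneg_left (h2 γ) (mul_nonneg ?_ (prod_nonneg fun a _ => hφ _))
        unfold muU
        refine prod_nonneg fun i _ => ?_
        cases γ i with
        | none =>
          simp only [mu1u]
          have := (hu i).2
          have h0 := (hu i).1
          have h1 : 0 ≤ (k : ℝ) * u i := by positivity
          nlinarith
        | some b => exact (hu i).1
    _ = ∑ ω : Fin k → Finset (Fin N), (∏ i, |lam ω i (γ' i)|) *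
          ∑ γ : St N k, muU u γ * (∏ a, φ (Ta γ a)) * ∏ a, K (Ta γ a) (ω a) := by
        simp only [mul_sum]
        rw [sum_comm]
        refine sum_congr rfl fun ω _ => sum_congr rfl fun γ _ => ?_
        ring
    _ ≤ ∑ ω : Fin k → Finset (Fin N), (∏ i, |lam ω i (γ' i)|) * (Z ^ k * ∏ a, muPl k u (ω a)) :=
        sum_le_sum fun ω _ => mul_le_mul_of_nonneg_left (h1 ω) (prod_nonneg fun i _ => abs_nonneg _)
    _ = Z ^ k * ∑ ω : Fin k → Finset (Fin N), ∏ i, (|lam1 (univ.filter (fun a => i ∈ ω a)) (γ' i)| *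
          ∏ a, (if a ∈ univ.filter (fun a => i ∈ ω a) then u i * (1 + 2 * k * u i) else 1 - u i)) := by
        rw [mul_sum]
        refine sum_congr rfl fun ω _ => ?_
        rw [prod_muPl, prod_mul_distrib]
        simp only [lam_eq]
        ring
    _ = Z ^ k * ∏ i, ∑ A : Finset (Fin k), (|lam1 A (γ' i)| *
          ∏ a, (if a ∈ A then u i * (1 + 2 * k * u i) else 1 - u i)) := by
        rw [sum_omega (fun i A => |lam1 A (γ' i)| *
          ∏ a, (if a ∈ A then u i * (1 + 2 * k * u i) else 1 - u i))]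
    _ ≤ Z ^ k * ∏ i, (Real.exp (20 * k ^ 2 * u i ^ 2 + if γ' i = none then 0 else 2 * k * u i) *
          mu1u (u i) (γ' i)) := by
        refine mul_le_mul_of_nonneg_left ?_ (pow_nonneg hZ k)
        refine prod_le_prod (fun i _ => ?_) fun i _ => place_le (hu i).1 (hu i).2 (γ' i)
        refine sum_nonneg fun A _ => mul_nonneg (abs_nonneg _) (prod_nonneg fun a _ => ?_)
        have h0 := (hu i).1
        have h1 := u_half a h0 (hu i).2
        split_ifs
        · positivity
        · linarith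
    _ = _ := by
        rw [prod_mul_distrib, Real.exp_sum, muU]
        ring

end Pool.Agent.Run7.h420.NWS
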